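import Pool.Agent.J6H20.GenF2.Tail

/-!
# Pairs of homeomorphisms with a boundary partition

The letters are pairs of bits: `(false, true)` and `(false, false)` stand for `s` and `s⁻¹`,
`(true, true)` and `(true, false)` for `t` and `t⁻¹`. A boundary partition for the pair `(f, g)` is a
continuous (locally constant) map `P` to the letters such that `P (f x) = s` if and only if
`P x ≠ s⁻¹`, and `P (g x) = t` if and only if `P x ≠ t⁻¹`; for instance the first letter, if there is
an equivariant continuous map to the boundary of the free group. Then the orbit equivalence relation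
is the tail equivalence relation of the map `x ↦ (P x)⁻¹ x`, and is hyperfinite.
-/

set_option autoImplicit false
set_option linter.unusedSectionVars false

namespace Pool.Agent.J6H20.GenF2

open MeasureTheory Filter Topology

/-- Cantor space. -/
abbrev C2 : Type := ℕ → Bool

/-- The rule for a boundary partition and one generator with the letters `(c, true)`, `(c, false)`. -/
def Rule (c : Bool) (P : C2 → Bool × Bool) (f : C2 → C2) : Prop :=
  ∀ x, P (f x) = (c, true) ↔ P x ≠ (c, false)

/-- The orbit equivalence relation. -/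
def Orb (f g : Equiv.Perm C2) (x y : C2) : Prop :=
  ∃ σ ∈ Subgroup.closure ({f, g} : Set (Equiv.Perm C2)), σ x = y

section

variable (f g : Equiv.Perm C2) (P : C2 → Bool × Bool)

/-- Move along the ray to the boundary point. -/
def move (x : C2) : C2 :=
  if P x = (false, true) then f.symm x
  else if P x = (false, false) then f x
  else if P x = (true, true) then g.symm x
  else g x

theorem orb_refl (x : C2) : Orb f g x x := ⟨1, Subgroup.one_mem _, rfl⟩

theorem orb_symm {x y : C2} (h : Orb f g x y) : Orb f g y x := by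
  obtain ⟨σ, hσ, rfl⟩ := h
  exact ⟨σ⁻¹, Subgroup.inv_mem _ hσ, by simp⟩

theorem orb_trans {x y z : C2} (h1 : Orb f g x y) (h2 : Orb f g y z) : Orb f g x z := by
  obtain ⟨σ, hσ, rfl⟩ := h1
  obtain ⟨τ, hτ, rfl⟩ := h2
  exact ⟨τ * σ, Subgroup.mul_mem _ hτ hσ, rfl⟩

theorem orb_move (x : C2) : Orb f g x (move f g P x) := by
  have hf : f ∈ Subgroup.closure ({f, g} : Set (Equiv.Perm C2)) :=
    Subgroup.subset_closure (by simp)
  have hg : g ∈ Subgroup.closure ({f, g} : Set (Equiv.Perm C2)) :=
    Subgroup.subset_closure (by simp)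
  unfold move
  split_ifs
  · exact ⟨f⁻¹, Subgroup.inv_mem _ hf, rfl⟩
  · exact ⟨f, hf, rfl⟩
  · exact ⟨g⁻¹, Subgroup.inv_mem _ hg, rfl⟩
  · exact ⟨g, hg, rfl⟩

theorem orb_iter (k : ℕ) (x : C2) : Orb f g x ((move f g P)^[k] x) := by
  induction k generalizing x with
  | zero => exact orb_refl f g x
  | succ k ih =>
    rw [Function.iterate_succ_apply]
    exact orb_trans f g (orb_move f g P x) (ih _)

/-- Tail equivalence. -/
def Tail (φ : C2 → C2) (x y : C2) : Prop := ∃ a b, φ^[a] x = φ^[b] y

theorem tail_symm {φ : C2 → C2} {x y : C2} (h : Tail φ x y) : Tail φ y x := by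
  obtain ⟨a, b, h⟩ := h
  exact ⟨b, a, h.symm⟩

theorem tail_trans {φ : C2 → C2} {x y z : C2} (h1 : Tail φ x y) (h2 : Tail φ y z) :
    Tail φ x z := by
  obtain ⟨a, b, h1⟩ := h1
  obtain ⟨c, d, h2⟩ := h2
  refine ⟨c + a, b + d, ?_⟩
  rw [Function.iterate_add_apply, h1, ← Function.iterate_add_apply, Nat.add_comm c b,
    Function.iterate_add_apply, h2, ← Function.iterate_add_apply]

variable {f g P}

theorem tail_gen (hf : Rule false P f) (hg : Rule true P g) (x : C2) :
    Tail (move f g P) x (f x) ∧ Tail (move f g P) x (g x) := by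
  constructor
  · by_cases h : P x = (false, false)
    · refine ⟨1, 0, ?_⟩
      simp [move, h]
    · have h2 := (hf x).2 h
      refine ⟨0, 1, ?_⟩
      simp [move, h2]
  · by_cases h : P x = (true, false)
    · refine ⟨1, 0, ?_⟩
      simp [move, h]
    · have h2 := (hg x).2 h
      refine ⟨0, 1, ?_⟩
      simp [move, h2]

theorem orb_iff_tail (hf : Rule false P f) (hg : Rule true P g) (x y : C2) :
    Orb f g x y ↔ ∃ a b, (move f g P)^[a] x = (move f g P)^[b] y := by
  constructor
  · rintro ⟨σ, hσ, rfl⟩
    change Tail (move f g P) x (σ x)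
    induction hσ using Subgroup.closure_induction generalizing x with
    | mem σ hσ =>
      rcases hσ with rfl | hσ
      · exact (tail_gen hf hg x).1
      · rw [Set.mem_singleton_iff] at hσ
        subst hσ
        exact (tail_gen hf hg x).2
    | one => exact ⟨0, 0, rfl⟩
    | mul σ τ _ _ h1 h2 =>
      exact tail_trans (h2 x) (h1 (τ x))
    | inv σ _ h1 =>
      have h2 := h1 (σ⁻¹ x)
      have h3 : σ (σ⁻¹ x) = x := by simp
      rw [h3] at h2
      exact tail_symm h2
  · rintro ⟨a, b, h⟩
    refine orb_trans f g (orb_iter f g P a x) ?_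
    rw [h]
    exact orb_symm f g (orb_iter f g P b y)

/-- The orbit equivalence relation of a pair of homeomorphisms with a boundary partition is
hyperfinite. -/
theorem hyperfinite_orb (hfc : Continuous f) (hgc : Continuous g) (hP : Continuous P)
    (hf : Rule false P f) (hg : Rule true P g) : Hyperfinite (Orb f g) := by
  have hfc' : Continuous f.symm := hfc.continuous_symm_of_equiv_compact_to_t2
  have hgc' : Continuous g.symm := hgc.continuous_symm_of_equiv_compact_to_t2
  have hmove : Measurable (move f g P) := by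
    have hPm : Measurable P := hP.measurable
    have hset : ∀ c : Bool × Bool, MeasurableSet {x | P x = c} := fun c =>
      hPm (measurableSet_singleton c)
    unfold move
    exact Measurable.ite (hset _) hfc'.measurable (Measurable.ite (hset _) hfc.measurable
      (Measurable.ite (hset _) hgc'.measurable hgc.measurable))
  -- an enumeration of the group
  have hcount : Countable (Subgroup.closure ({f, g} : Set (Equiv.Perm C2))) := by
    rw [FreeGroup.closure_eq_range]
    have : Countable ↥({f, g} : Set (Equiv.Perm C2)) :=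
      ((Set.toFinite ({f, g} : Set (Equiv.Perm C2))).countable).to_subtype
    exact (MonoidHom.rangeRestrict_surjective _).countable
  have hne : Nonempty (Subgroup.closure ({f, g} : Set (Equiv.Perm C2))) := ⟨1⟩
  obtain ⟨e, he⟩ := exists_surjective_nat (Subgroup.closure ({f, g} : Set (Equiv.Perm C2)))
  have hcont : ∀ σ ∈ Subgroup.closure ({f, g} : Set (Equiv.Perm C2)),
      Continuous σ ∧ Continuous (σ⁻¹ : Equiv.Perm C2) := by
    intro σ hσ
    induction hσ using Subgroup.closure_induction with
    | mem σ hσ =>
      rcases hσ with rfl | hσ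
      · exact ⟨hfc, hfc'⟩
      · rw [Set.mem_singleton_iff] at hσ
        subst hσ
        exact ⟨hgc, hgc'⟩
    | one => exact ⟨continuous_id, continuous_id⟩
    | mul σ τ _ _ h1 h2 =>
      refine ⟨h1.1.comp h2.1, ?_⟩
      rw [mul_inv_rev]
      exact h2.2.comp h1.2
    | inv σ _ h1 =>
      refine ⟨h1.2, ?_⟩
      rw [inv_inv]
      exact h1.1
  refine hyperfinite_tail (move f g P) hmove (fun j => ((e j : Equiv.Perm C2) : C2 → C2))
    (fun j => (hcont _ (e j).2).1.measurable) (orb_iff_tail hf hg) ?_
  intro x y
  constructor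
  · rintro ⟨σ, hσ, rfl⟩
    obtain ⟨j, hj⟩ := he ⟨σ, hσ⟩
    exact ⟨j, by rw [hj]⟩
  · rintro ⟨j, rfl⟩
    exact ⟨_, (e j).2, rfl⟩

end

end Pool.Agent.J6H20.GenF2
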