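import Pool.Agent.J6H20.GenF2.Top

/-!
The generic action of the free group with two generators on Cantor space is hyperfinite (known: Iyer and
Shinko, Asymptotic dimension and hyperfiniteness of generic Cantor actions). Not a hand-in.
-/

set_option autoImplicit false

namespace Pool.Agent.J6H20.GenF2


/-- For comeager-many pairs (f,g) of homeomorphisms of Cantor space, the orbit relation of the group they generate is an increasing union of Borel equivalence relations with finite classes (i.e. the generic F_2 action is hyperfinite). -/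
theorem generic_hyperfinite :
    {q : {p : C(ℕ → Bool, ℕ → Bool) × C(ℕ → Bool, ℕ → Bool) //
          Function.Bijective (p.1 : (ℕ → Bool) → (ℕ → Bool)) ∧
          Function.Bijective (p.2 : (ℕ → Bool) → (ℕ → Bool))} |
      ∃ F : ℕ → (ℕ → Bool) → (ℕ → Bool) → Prop,
        (∀ n, MeasurableSet {z : (ℕ → Bool) × (ℕ → Bool) | F n z.1 z.2}) ∧
        (∀ n, Equivalence (F n)) ∧
        (∀ n x, {y : ℕ → Bool | F n x y}.Finite) ∧
        (∀ n x y, F n x y → F (n + 1) x y) ∧
        (∀ x y : ℕ → Bool,
          (∃ σ ∈ Subgroup.closure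
              ({Equiv.ofBijective (q.1.1 : (ℕ → Bool) → (ℕ → Bool)) q.2.1,
                Equiv.ofBijective (q.1.2 : (ℕ → Bool) → (ℕ → Bool)) q.2.2} :
                Set (Equiv.Perm (ℕ → Bool))), σ x = y) ↔ ∃ n, F n x y)}
      ∈ residual _ := by
  refine Filter.mem_of_superset (residual_of_dense_open Pool.Agent.J6H20.GenF2.isOpen_good
    Pool.Agent.J6H20.GenF2.dense_good) ?_
  rintro q ⟨P, hP, h1, h2⟩
  exact Pool.Agent.J6H20.GenF2.hyperfinite_orb
    (f := Equiv.ofBijective (q.1.1 : (ℕ → Bool) → (ℕ → Bool)) q.2.1)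
    (g := Equiv.ofBijective (q.1.2 : (ℕ → Bool) → (ℕ → Bool)) q.2.2)
    q.1.1.continuous q.1.2.continuous hP h1 h2

end Pool.Agent.J6H20.GenF2
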