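import Mathlib

/-!
# Hyperfiniteness from a sequence of measurable maps

`Hyperfinite E`: the relation `E` is the increasing union of measurable equivalence relations with
finite classes. The main lemma `hyperfinite_of_maps` is the theorem of Dougherty, Jackson and Kechris
that a countable hypersmooth equivalence relation is hyperfinite.
-/

set_option autoImplicit false

set_option linter.unusedSectionVars false

namespace Pool.Agent.J6H20.GenF2

open MeasureTheory

/-- `E` is the increasing union of measurable equivalence relations with finite classes. -/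
def Hyperfinite {X : Type} [MeasurableSpace X] (E : X → X → Prop) : Prop :=
  ∃ F : ℕ → X → X → Prop,
    (∀ n, MeasurableSet {z : X × X | F n z.1 z.2}) ∧
    (∀ n, Equivalence (F n)) ∧
    (∀ n x, {y : X | F n x y}.Finite) ∧
    (∀ n x y, F n x y → F (n + 1) x y) ∧
    (∀ x y : X, E x y ↔ ∃ n, F n x y)

section

variable {X : Type} [MeasurableSpace X] [MeasurableEq X]

/-- The number of the first `γ j` which maps `z (n + 1) x` to `z n x`. -/
noncomputable def idx (γ : ℕ → X → X) (z : ℕ → X → X)
    (h : ∀ n x, ∃ j, z n x = γ j (z (n + 1) x)) (n : ℕ) (x : X) : ℕ :=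
  by classical exact Nat.find (h n x)

theorem idx_spec {γ : ℕ → X → X} {z : ℕ → X → X}
    (h : ∀ n x, ∃ j, z n x = γ j (z (n + 1) x)) (n : ℕ) (x : X) :
    z n x = γ (idx γ z h n x) (z (n + 1) x) := by
  classical
  exact Nat.find_spec (h n x)

theorem measurable_idx {γ : ℕ → X → X} {z : ℕ → X → X} (hγ : ∀ j, Measurable (γ j))
    (hz : ∀ n, Measurable (z n))
    (h : ∀ n x, ∃ j, z n x = γ j (z (n + 1) x)) (n : ℕ) : Measurable (idx γ z h n) := by
  classical
  unfold idx
  exact measurable_find _ fun j => measurableSet_eq_fun (hz n) ((hγ j).comp (hz (n + 1)))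

/-- The level of `x` at stage `n`. -/
noncomputable def lev (i : ℕ → X → ℕ) (n : ℕ) (x : X) : ℕ :=
  by classical exact Nat.findGreatest (fun m => ∀ k < m, i k x ≤ n) n

theorem measurable_lev {i : ℕ → X → ℕ} (hi : ∀ n, Measurable (i n)) (n : ℕ) :
    Measurable (lev i n) := by
  classical
  unfold lev
  refine measurable_findGreatest fun m _ => ?_
  have : {x : X | ∀ k < m, i k x ≤ n} = ⋂ k, ⋂ (_ : k < m), {x : X | i k x ≤ n} := by
    ext x; simp
  rw [this]
  exact MeasurableSet.iInter fun k => MeasurableSet.iInter fun _ => hi k measurableSet_Iic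

theorem lev_spec (i : ℕ → X → ℕ) (n : ℕ) (x : X) : ∀ k < lev i n x, i k x ≤ n := by
  classical
  unfold lev
  exact Nat.findGreatest_spec (P := fun m => ∀ k < m, i k x ≤ n) (Nat.zero_le n)
    (fun k hk => absurd hk (Nat.not_lt_zero k))

theorem lev_le (i : ℕ → X → ℕ) (n : ℕ) (x : X) : lev i n x ≤ n := by
  classical
  unfold lev
  exact Nat.findGreatest_le n

theorem le_lev {i : ℕ → X → ℕ} {n m : ℕ} {x : X} (hm : m ≤ n) (h : ∀ k < m, i k x ≤ n) :
    m ≤ lev i n x := by
  classical
  unfold lev
  exact Nat.le_findGreatest hm h

/-- **Countable hypersmooth equivalence relations are hyperfinite.** Let `z n` be measurable maps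
such that `z 0` is the identity, `z (n + 1)` factors through `z n`, and two points are equivalent if
and only if they have the same image under some `z n`. If `z n x` is obtained from `z (n + 1) x` by
one of countably many measurable maps `γ j`, then the relation is hyperfinite. -/
theorem hyperfinite_of_maps {E : X → X → Prop} (γ : ℕ → X → X) (hγ : ∀ j, Measurable (γ j))
    (z : ℕ → X → X) (hz : ∀ n, Measurable (z n)) (hz0 : ∀ x, z 0 x = x)
    (hfac : ∀ n x y, z n x = z n y → z (n + 1) x = z (n + 1) y)
    (h : ∀ n x, ∃ j, z n x = γ j (z (n + 1) x))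
    (hE : ∀ x y, E x y ↔ ∃ n, z n x = z n y) : Hyperfinite E := by
  classical
  set i := idx γ z h with hi
  have hfac' : ∀ n m x y, n ≤ m → z n x = z n y → z m x = z m y := by
    intro n m x y hnm hxy
    induction m, hnm using Nat.le_induction with
    | base => exact hxy
    | succ m _ ih => exact hfac m x y ih
  have hii : ∀ n m x y, n ≤ m → z n x = z n y → i m x = i m y := by
    intro n m x y hnm hxy
    have h1 := hfac' n m x y hnm hxy
    have h2 := hfac' n (m + 1) x y (by omega) hxy
    simp only [hi, idx]
    congr 1
    funext j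
    rw [h1, h2]
  refine ⟨fun n x y => lev i n x = lev i n y ∧ z (lev i n x) x = z (lev i n x) y, ?_, ?_, ?_, ?_, ?_⟩
  · intro n
    have hl : Measurable (lev i n) := measurable_lev (fun n => measurable_idx hγ hz h n) n
    have : {w : X × X | lev i n w.1 = lev i n w.2 ∧ z (lev i n w.1) w.1 = z (lev i n w.1) w.2} =
        ⋃ m : ℕ, ({w : X × X | lev i n w.1 = m} ∩ {w : X × X | lev i n w.2 = m}) ∩
          {w : X × X | z m w.1 = z m w.2} := by
      ext w
      simp only [Set.mem_ofPred_eq, Set.mem_iUnion, Set.mem_inter_iff]
      constructor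
      · rintro ⟨h1, h2⟩
        exact ⟨_, ⟨rfl, h1.symm⟩, h2⟩
      · rintro ⟨m, ⟨h1, h2⟩, h3⟩
        exact ⟨h1.trans h2.symm, by rw [h1]; exact h3⟩
    rw [this]
    refine MeasurableSet.iUnion fun m => (MeasurableSet.inter ?_ ?_).inter ?_
    · exact (hl.comp measurable_fst) (measurableSet_singleton m)
    · exact (hl.comp measurable_snd) (measurableSet_singleton m)
    · exact measurableSet_eq_fun ((hz m).comp measurable_fst) ((hz m).comp measurable_snd)
  · intro n
    refine ⟨fun x => ⟨rfl, rfl⟩, fun {x y} h1 => ⟨h1.1.symm, ?_⟩, fun {x y w} h1 h2 =>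
      ⟨h1.1.trans h2.1, ?_⟩⟩
    · rw [← h1.1]; exact h1.2.symm
    · have := h2.2
      rw [← h1.1] at this
      exact h1.2.trans this
  · intro n x
    have key : ∀ (m : ℕ) (c : X), {y : X | z m y = c ∧ ∀ k < m, i k y ≤ n}.Finite := by
      intro m
      induction m with
      | zero =>
        intro c
        refine (Set.finite_singleton c).subset ?_
        rintro y ⟨hy, -⟩
        rw [hz0] at hy
        exact hy
      | succ m ih =>
        intro c
        refine ((Set.finite_Iic n).biUnion fun j _ => ih (γ j c)).subset ?_
        rintro y ⟨hy, hk⟩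
        simp only [Set.mem_iUnion]
        refine ⟨i m y, hk m (Nat.lt_succ_self m), ?_, fun k hkm => hk k (Nat.lt_succ_of_lt hkm)⟩
        have := idx_spec h m y
        rw [hy] at this
        exact this
    refine (key (lev i n x) (z (lev i n x) x)).subset ?_
    rintro y ⟨h1, h2⟩
    refine ⟨h2.symm, ?_⟩
    rw [h1]
    exact lev_spec i n y
  · rintro n x y ⟨h1, h2⟩
    have hm : lev i n x ≤ lev i (n + 1) x :=
      le_lev (le_trans (lev_le i n x) (Nat.le_succ n)) fun k hk =>
        le_trans (lev_spec i n x k hk) (Nat.le_succ n)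
    have hm' : lev i n y ≤ lev i (n + 1) y :=
      le_lev (le_trans (lev_le i n y) (Nat.le_succ n)) fun k hk =>
        le_trans (lev_spec i n y k hk) (Nat.le_succ n)
    have heq : ∀ k, lev i n x ≤ k → i k x = i k y := fun k hk => hii _ k x y hk h2
    have hle : lev i (n + 1) x = lev i (n + 1) y := by
      apply le_antisymm
      · refine le_lev (lev_le i (n + 1) x) fun k hk => ?_
        by_cases hk' : k < lev i n y
        · exact le_trans (lev_spec i n y k hk') (Nat.le_succ n)
        · rw [← heq k (by omega)]
          exact lev_spec i (n + 1) x k hk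
      · refine le_lev (lev_le i (n + 1) y) fun k hk => ?_
        by_cases hk' : k < lev i n x
        · exact le_trans (lev_spec i n x k hk') (Nat.le_succ n)
        · rw [heq k (by omega)]
          exact lev_spec i (n + 1) y k hk
    exact ⟨hle, hfac' _ _ x y hm h2⟩
  · intro x y
    rw [hE]
    constructor
    · rintro ⟨m, hm⟩
      -- a bound for the indices below `m`
      obtain ⟨N, hN1, hN2, hN3⟩ : ∃ N, m ≤ N ∧ (∀ k < m, i k x ≤ N) ∧ (∀ k < m, i k y ≤ N) := by
        refine ⟨m + (Finset.range m).sup (fun k => i k x) + (Finset.range m).sup (fun k => i k y),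
          by omega, fun k hk => ?_, fun k hk => ?_⟩
        · have := Finset.le_sup (f := fun k => i k x) (Finset.mem_range.2 hk)
          omega
        · have := Finset.le_sup (f := fun k => i k y) (Finset.mem_range.2 hk)
          omega
      have hx : m ≤ lev i N x := le_lev hN1 hN2
      have hy : m ≤ lev i N y := le_lev hN1 hN3
      have heq : ∀ k, m ≤ k → i k x = i k y := fun k hk => hii _ k x y hk hm
      have hle : lev i N x = lev i N y := by
        apply le_antisymm
        · refine le_lev (lev_le i N x) fun k hk => ?_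
          by_cases hk' : k < m
          · exact hN3 k hk'
          · rw [← heq k (by omega)]
            exact lev_spec i N x k hk
        · refine le_lev (lev_le i N y) fun k hk => ?_
          by_cases hk' : k < m
          · exact hN2 k hk'
          · rw [heq k (by omega)]
            exact lev_spec i N y k hk
      exact ⟨N, hle, hfac' _ _ x y hx hm⟩
    · rintro ⟨n, -, h2⟩
      exact ⟨_, h2⟩

end

end Pool.Agent.J6H20.GenF2
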