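import Pool.Agent.J6H20.GenF2.HF

/-!
# Tail equivalence relations are hyperfinite

The theorem of Dougherty, Jackson and Kechris: if `φ` is a measurable self-map of a standard Borel
space, such that the equivalence relation `φ^a x = φ^b y` (for some `a`, `b`) has countable classes,
given by countably many measurable maps, then this equivalence relation is hyperfinite.
-/

set_option autoImplicit false
set_option linter.unusedSectionVars false

namespace Pool.Agent.J6H20.GenF2

open MeasureTheory Filter Topology

section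

variable {X : Type} [MeasurableSpace X] {φ : X → X} {ψ : X → ℝ}

/-- The lower limit of the values of `ψ` along the forward orbit of `x`. -/
noncomputable def lim (φ : X → X) (ψ : X → ℝ) (x : X) : ℝ :=
  liminf (fun k : ℕ => ψ (φ^[k] x)) atTop

theorem measurable_iter (hφ : Measurable φ) (k : ℕ) : Measurable (φ^[k]) := hφ.iterate k

theorem measurable_lim (hφ : Measurable φ) (hψ : Measurable ψ) : Measurable (lim φ ψ) :=
  Measurable.liminf fun k => hψ.comp (measurable_iter hφ k)

theorem lim_apply (x : X) : lim φ ψ (φ x) = lim φ ψ x := by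
  unfold lim
  have : (fun k : ℕ => ψ (φ^[k] (φ x))) = (fun k : ℕ => ψ (φ^[k] x)) ∘ fun k => k + 1 := by
    funext k
    simp [Function.iterate_succ_apply]
  rw [this, liminf, liminf, ← map_map, map_add_atTop_eq_nat]

theorem lim_iter (k : ℕ) (x : X) : lim φ ψ (φ^[k] x) = lim φ ψ x := by
  induction k generalizing x with
  | zero => rfl
  | succ k ih => rw [Function.iterate_succ_apply, ih, lim_apply]

theorem exists_near (C : ℝ) (hb : ∀ x, |ψ x| ≤ C) (x : X) {ε : ℝ} (hε : 0 < ε) :
    ∃ k : ℕ, |ψ (φ^[k] x) - lim φ ψ x| < ε := by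
  have hbdd : (atTop : Filter ℕ).IsBoundedUnder (· ≥ ·) fun k : ℕ => ψ (φ^[k] x) :=
    ⟨-C, by
      simp only [eventually_map]
      exact Eventually.of_forall fun k => (abs_le.1 (hb _)).1⟩
  have hbdd' : (atTop : Filter ℕ).IsBoundedUnder (· ≤ ·) fun k : ℕ => ψ (φ^[k] x) :=
    ⟨C, by
      simp only [eventually_map]
      exact Eventually.of_forall fun k => (abs_le.1 (hb _)).2⟩
  have hcob : (atTop : Filter ℕ).IsCoboundedUnder (· ≥ ·) fun k : ℕ => ψ (φ^[k] x) :=
    hbdd'.isCoboundedUnder_ge
  have h1 : ∃ᶠ k : ℕ in atTop, ψ (φ^[k] x) < lim φ ψ x + ε :=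
    frequently_lt_of_liminf_lt hcob (by unfold lim; linarith)
  have h2 : ∀ᶠ k : ℕ in atTop, lim φ ψ x - ε < ψ (φ^[k] x) :=
    eventually_lt_of_lt_liminf (by unfold lim; linarith) hbdd
  obtain ⟨k, hk1, hk2⟩ := (h1.and_eventually h2).exists
  exact ⟨k, abs_lt.2 ⟨by linarith, by linarith⟩⟩

theorem measurable_of_param {k : X → ℕ} (hk : Measurable k) {g : ℕ → X → X}
    (hg : ∀ m, Measurable (g m)) : Measurable fun x => g (k x) x := by
  intro S hS
  have : (fun x => g (k x) x) ⁻¹' S = ⋃ m : ℕ, (k ⁻¹' {m}) ∩ (g m) ⁻¹' S := by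
    ext x
    simp
  rw [this]
  exact MeasurableSet.iUnion fun m => (hk (measurableSet_singleton m)).inter (hg m hS)

end

/-- **Tail equivalence relations are hyperfinite.** -/
theorem hyperfinite_tail {X : Type} [MeasurableSpace X] [StandardBorelSpace X] (φ : X → X)
    (hφ : Measurable φ) (γ : ℕ → X → X) (hγ : ∀ j, Measurable (γ j)) {E : X → X → Prop}
    (hE : ∀ x y, E x y ↔ ∃ a b, φ^[a] x = φ^[b] y) (hE2 : ∀ x y, E x y ↔ ∃ j, y = γ j x) :
    Hyperfinite E := by
  classical
  obtain ⟨ψ₀, hψ₀⟩ := exists_measurableEmbedding_real X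
  set ψ : X → ℝ := fun x => Real.arctan (ψ₀ x) with hψdef
  have hψ : Measurable ψ := Real.measurable_arctan.comp hψ₀.measurable
  have hψi : Function.Injective ψ := fun x y hxy => hψ₀.injective (Real.arctan_injective hxy)
  have hb : ∀ x, |ψ x| ≤ Real.pi / 2 := fun x =>
    abs_le.2 ⟨(Real.neg_pi_div_two_lt_arctan _).le, (Real.arctan_lt_pi_div_two _).le⟩
  -- `E` is an equivalence relation
  have hrefl : ∀ x, E x x := fun x => (hE x x).2 ⟨0, 0, rfl⟩
  have hsymm : ∀ {x y}, E x y → E y x := fun {x y} h => by
    obtain ⟨a, b, h⟩ := (hE x y).1 h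
    exact (hE y x).2 ⟨b, a, h.symm⟩
  have htrans : ∀ {x y w}, E x y → E y w → E x w := fun {x y w} h1 h2 => by
    obtain ⟨a, b, h1⟩ := (hE x y).1 h1
    obtain ⟨c, d, h2⟩ := (hE y w).1 h2
    refine (hE x w).2 ⟨c + a, b + d, ?_⟩
    rw [Function.iterate_add_apply, h1, ← Function.iterate_add_apply, Nat.add_comm c b,
      Function.iterate_add_apply, h2, ← Function.iterate_add_apply]
  have hiter : ∀ k x, E x (φ^[k] x) := fun k x => (hE _ _).2 ⟨k, 0, rfl⟩
  -- the lower limit is invariant
  set s := lim φ ψ with hs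
  have hsE : ∀ {x y}, E x y → s x = s y := fun {x y} h => by
    obtain ⟨a, b, h⟩ := (hE x y).1 h
    rw [hs, ← lim_iter a x, h, lim_iter]
  have hsm : Measurable s := measurable_lim hφ hψ
  -- near times
  set near : ℕ → X → ℕ → Prop := fun n x k => |ψ (φ^[k] x) - s x| < 1 / ((n : ℝ) + 1) with hnear
  have hex : ∀ n x, ∃ k, near n x k := fun n x =>
    exists_near (Real.pi / 2) hb x (by positivity)
  have hmono : ∀ n x k, near (n + 1) x k → near n x k := fun n x k h => by
    refine lt_of_lt_of_le h ?_
    push_cast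
    exact one_div_le_one_div_of_le (by positivity) (by linarith)
  set kk : ℕ → X → ℕ := fun n x => Nat.find (hex n x) with hkk
  have hkkm : ∀ n, Measurable (kk n) := fun n => by
    refine measurable_find _ fun k => ?_
    exact measurableSet_lt (((hψ.comp (measurable_iter hφ k)).sub hsm).abs) measurable_const
  -- the set where the lower limit is attained on the orbit
  set B : X → Prop := fun x => ∃ j, ψ (γ j x) = s x with hB
  have hBm : MeasurableSet {x | B x} := by
    have : {x | B x} = ⋃ j, {x | ψ (γ j x) = s x} := by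
      ext x; simp [hB]
    rw [this]
    exact MeasurableSet.iUnion fun j => measurableSet_eq_fun (hψ.comp (hγ j)) hsm
  have hBE : ∀ {x y}, E x y → B x → B y := fun {x y} h hx => by
    obtain ⟨j, hj⟩ := hx
    obtain ⟨j', hj'⟩ := (hE2 y (γ j x)).1 (htrans (hsymm h) ((hE2 _ _).2 ⟨j, rfl⟩))
    exact ⟨j', by rw [← hj', hj, hsE h]⟩
  have hBE' : ∀ {x y}, E x y → (B x ↔ B y) := fun {x y} h => ⟨hBE h, hBE (hsymm h)⟩
  -- the point of the orbit where it is attained
  have hex2 : ∀ x, ∃ j, ψ (γ j x) = s x ∨ ¬ B x := fun x => by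
    by_cases h : B x
    · exact h.imp fun j hj => Or.inl hj
    · exact ⟨0, Or.inr h⟩
  set jj : X → ℕ := fun x => Nat.find (hex2 x) with hjj
  have hjjm : Measurable jj := by
    refine measurable_find _ fun j => ?_
    exact (measurableSet_eq_fun (hψ.comp (hγ j)) hsm).union hBm.compl
  set p : X → X := fun x => γ (jj x) x with hp
  have hpm : Measurable p := measurable_of_param hjjm hγ
  have hps : ∀ x, B x → ψ (p x) = s x := fun x hx =>
    (Nat.find_spec (hex2 x)).resolve_right fun h => h hx
  have hpE : ∀ x, E x (p x) := fun x => (hE2 _ _).2 ⟨jj x, rfl⟩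
  have hpp : ∀ {x y}, E x y → B x → p x = p y := fun {x y} h hx => by
    apply hψi
    rw [hps x hx, hps y (hBE h hx), hsE h]
  -- comparison of near times
  have hcmp : ∀ n x y a b, E x y → φ^[a] x = φ^[b] y → a ≤ kk n x → b ≤ kk n y →
      φ^[kk n x] x = φ^[kk n y] y := by
    intro n x y a b hxy hab ha hb'
    have key : ∀ j, near n x (a + j) ↔ near n y (b + j) := by
      intro j
      have : φ^[a + j] x = φ^[b + j] y := by
        rw [Nat.add_comm a j, Nat.add_comm b j, Function.iterate_add_apply, hab,
          ← Function.iterate_add_apply]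
      simp only [hnear, this, hsE hxy]
    have hx' : near n x (kk n x) := Nat.find_spec (hex n x)
    have hy' : near n y (kk n y) := Nat.find_spec (hex n y)
    have h1 : kk n y ≤ b + (kk n x - a) := by
      refine Nat.find_min' (hex n y) ((key _).1 ?_)
      rw [Nat.add_sub_cancel' ha]
      exact hx'
    have h2 : kk n x ≤ a + (kk n y - b) := by
      refine Nat.find_min' (hex n x) ((key _).2 ?_)
      rw [Nat.add_sub_cancel' hb']
      exact hy'
    have h3 : kk n x = (kk n x - a) + a := by omega
    have h4 : kk n y = (kk n x - a) + b := by omega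
    rw [h4, h3, Function.iterate_add_apply, Function.iterate_add_apply, hab]
    congr 2
  have hkkmono : ∀ n x, kk n x ≤ kk (n + 1) x := fun n x =>
    Nat.find_min' (hex n x) (hmono n x _ (Nat.find_spec (hex (n + 1) x)))
  -- the maps
  set z : ℕ → X → X := fun n x => match n with
    | 0 => x
    | n + 1 => if B x then p x else φ^[kk n x] x with hz
  have hz0 : ∀ x, z 0 x = x := fun x => rfl
  have hz1 : ∀ n x, B x → z (n + 1) x = p x := fun n x hx => by
    simp only [hz, if_pos hx]
  have hz2 : ∀ n x, ¬ B x → z (n + 1) x = φ^[kk n x] x := fun n x hx => by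
    simp only [hz, if_neg hx]
  have hzE : ∀ n x, E x (z n x) := by
    intro n x
    cases n with
    | zero => exact hrefl x
    | succ n =>
      by_cases hx : B x
      · rw [hz1 n x hx]; exact hpE x
      · rw [hz2 n x hx]; exact hiter _ _
  refine hyperfinite_of_maps γ hγ z ?_ hz0 ?_ ?_ ?_
  · intro n
    cases n with
    | zero => exact measurable_id
    | succ n =>
      exact Measurable.ite hBm hpm (measurable_of_param (hkkm n) fun k => measurable_iter hφ k)
  · intro n x y hxy
    have hxyE : E x y := htrans (hzE n x) (by rw [hxy]; exact hsymm (hzE n y))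
    cases n with
    | zero =>
      rw [hz0, hz0] at hxy
      rw [hxy]
    | succ n =>
      by_cases hx : B x
      · rw [hz1 _ x hx, hz1 _ y (hBE hxyE hx), hpp hxyE hx]
      · have hy : ¬ B y := fun h => hx (hBE (hsymm hxyE) h)
        rw [hz2 n x hx, hz2 n y hy] at hxy
        rw [hz2 _ x hx, hz2 _ y hy]
        exact hcmp (n + 1) x y _ _ hxyE hxy (hkkmono n x) (hkkmono n y)
  · intro n x
    exact (hE2 _ _).1 (htrans (hsymm (hzE (n + 1) x)) (hzE n x))
  · intro x y
    constructor
    · intro hxy
      by_cases hx : B x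
      · exact ⟨1, by rw [hz1 _ x hx, hz1 _ y (hBE hxy hx), hpp hxy hx]⟩
      · have hy : ¬ B y := fun h => hx (hBE (hsymm hxy) h)
        -- the near times tend to infinity
        have hbig : ∀ w, ¬ B w → ∀ a, ∃ N, ∀ n, N ≤ n → a ≤ kk n w := by
          intro w hw a
          induction a with
          | zero => exact ⟨0, fun n _ => Nat.zero_le _⟩
          | succ a ih =>
            obtain ⟨N, hN⟩ := ih
            have hne : ψ (φ^[a] w) ≠ s w := by
              intro h
              obtain ⟨j, hj⟩ := (hE2 w (φ^[a] w)).1 (hiter a w)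
              exact hw ⟨j, by rw [← hj]; exact h⟩
            have hpos : 0 < |ψ (φ^[a] w) - s w| := abs_pos.2 (sub_ne_zero.2 hne)
            obtain ⟨M, hM⟩ := exists_nat_one_div_lt hpos
            refine ⟨max N M, fun n hn => ?_⟩
            have h1 := hN n (le_trans (le_max_left _ _) hn)
            rcases Nat.lt_or_ge a (kk n w) with h2 | h2
            · exact h2
            · exfalso
              have h3 : kk n w = a := le_antisymm h2 h1
              have h4 : near n w (kk n w) := Nat.find_spec (hex n w)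
              rw [h3] at h4
              simp only [hnear] at h4
              have h5 : (1 : ℝ) / ((n : ℝ) + 1) ≤ 1 / ((M : ℝ) + 1) := by
                have : (M : ℝ) ≤ n := by exact_mod_cast le_trans (le_max_right N M) hn
                exact one_div_le_one_div_of_le (by positivity) (by linarith)
              linarith
        obtain ⟨a, b, hab⟩ := (hE x y).1 hxy
        obtain ⟨N1, hN1⟩ := hbig x hx a
        obtain ⟨N2, hN2⟩ := hbig y hy b
        refine ⟨max N1 N2 + 1, ?_⟩
        rw [hz2 _ x hx, hz2 _ y hy]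
        exact hcmp _ x y a b hxy hab (hN1 _ (le_max_left _ _)) (hN2 _ (le_max_right _ _))
    · rintro ⟨n, hn⟩
      exact htrans (hzE n x) (by rw [hn]; exact hsymm (hzE n y))

end Pool.Agent.J6H20.GenF2
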