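import Pool.Agent.J6H20.GenF2.Act

/-!
# Pairs with a boundary partition form an open dense set
-/

set_option autoImplicit false
set_option linter.unusedSectionVars false

namespace Pool.Agent.J6H20.GenF2

open Filter Topology Uniformity

/-- The first two bits. -/
def P0 (x : C2) : Bool × Bool := (x 0, x 1)

/-- The map `S0` in coordinates. -/
def SG (i : ℕ) (a b c m2 m1 p1 p2 : Bool) : Bool :=
  if a = true then (if i = 0 then false else if i = 1 then true else m2)
  else if b = true then (if i = 0 then false else if i = 1 then true else if i = 2 then false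
    else m1)
  else if c = true then p2 else p1

/-- The inverse of `S0` in coordinates. -/
def TG (i : ℕ) (a b c m2 m1 p1 p2 : Bool) : Bool :=
  if a = true then (if i = 0 then false else if i = 1 then false else m2)
  else if b = false then (if i = 0 then false else m1)
  else if c = true then p2
  else (if i = 0 then false else if i = 1 then true else p1)

/-- Apply a rule in coordinates. -/
def app (G : ℕ → Bool → Bool → Bool → Bool → Bool → Bool → Bool → Bool) (x : C2) : C2 :=
  fun i => G i (x 0) (x 1) (x 2) (x (i - 2)) (x (i - 1)) (x (i + 1)) (x (i + 2))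

theorem continuous_app (G : ℕ → Bool → Bool → Bool → Bool → Bool → Bool → Bool → Bool) :
    Continuous (app G) := by
  refine continuous_pi fun i => ?_
  have : (fun x : C2 => app G x i) =
      (fun p : Bool × Bool × Bool × Bool × Bool × Bool × Bool =>
        G i p.1 p.2.1 p.2.2.1 p.2.2.2.1 p.2.2.2.2.1 p.2.2.2.2.2.1 p.2.2.2.2.2.2) ∘
      fun x : C2 => (x 0, x 1, x 2, x (i - 2), x (i - 1), x (i + 1), x (i + 2)) := rfl
  rw [this]
  exact continuous_of_discreteTopology.comp (by fun_prop)

/-- A homeomorphism of Cantor space which maps the words which do not start with `00` onto the words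
which start with `01`. -/
def S0 : C2 → C2 := app SG

/-- Its inverse. -/
def S0' : C2 → C2 := app TG

theorem S0'_S0 (x : C2) : S0' (S0 x) = x := by
  funext i
  rcases h0 : x 0 <;> rcases h1 : x 1 <;> rcases h2 : x 2 <;>
    rcases i with _ | _ | _ | i <;> simp [S0, S0', app, SG, TG, h0, h1, h2]

theorem S0_S0' (x : C2) : S0 (S0' x) = x := by
  funext i
  rcases h0 : x 0 <;> rcases h1 : x 1 <;> rcases h2 : x 2 <;>
    rcases i with _ | _ | _ | i <;> simp [S0, S0', app, SG, TG, h0, h1, h2]

theorem rule_S0 : Rule false P0 S0 := by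
  intro x
  rcases h0 : x 0 <;> rcases h1 : x 1 <;> rcases h2 : x 2 <;>
    simp [P0, S0, app, SG, h0, h1, h2]

/-- Flip the first bit. -/
def flip0 (x : C2) : C2 := fun i => if i = 0 then !(x i) else x i

theorem flip0_flip0 (x : C2) : flip0 (flip0 x) = x := by
  funext i
  by_cases h : i = 0 <;> simp [flip0, h]

theorem continuous_flip0 : Continuous flip0 := by
  refine continuous_pi fun i => ?_
  by_cases h : i = 0
  · simp only [flip0, h, if_true]
    exact (continuous_of_discreteTopology (f := fun b : Bool => !b)).comp (continuous_apply 0)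
  · simp only [flip0, h, if_false]
    exact continuous_apply i

/-- The other homeomorphism. -/
def T0 (x : C2) : C2 := flip0 (S0 (flip0 x))

/-- Its inverse. -/
def T0' (x : C2) : C2 := flip0 (S0' (flip0 x))

theorem T0'_T0 (x : C2) : T0' (T0 x) = x := by
  simp [T0, T0', flip0_flip0, S0'_S0]

theorem T0_T0' (x : C2) : T0 (T0' x) = x := by
  simp [T0, T0', flip0_flip0, S0_S0']

theorem rule_T0 : Rule true P0 T0 := by
  intro x
  have h1 : P0 (T0 x) = (!(S0 (flip0 x) 0), S0 (flip0 x) 1) := by simp [P0, T0, flip0]
  have h2 : P0 (flip0 x) = (!(x 0), x 1) := by simp [P0, flip0]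
  have h3 := rule_S0 (flip0 x)
  rw [h2] at h3
  rw [h1]
  simp only [P0, Prod.mk.injEq, ne_eq, not_and] at h3 ⊢
  simp only [Bool.not_eq_true', Bool.not_eq_false'] at h3 ⊢
  exact h3

/-- The first `N` bits and the even bits of the rest. -/
def pi1 (N : ℕ) (x : C2) : C2 := fun i => if i < N then x i else x (N + 2 * (i - N))

/-- The odd bits after the first `N` bits. -/
def pi2 (N : ℕ) (x : C2) : C2 := fun j => x (N + 2 * j + 1)

/-- The inverse of `(pi1, pi2)`. -/
def join (N : ℕ) (a c : C2) : C2 := fun i =>
  if i < N then a i else if (i - N) % 2 = 0 then a (N + (i - N) / 2) else c ((i - N) / 2)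

theorem pi1_join (N : ℕ) (a c : C2) : pi1 N (join N a c) = a := by
  funext i
  by_cases h : i < N
  · simp [pi1, join, h]
  · have h1 : ¬ N + 2 * (i - N) < N := by omega
    have h2 : (N + 2 * (i - N) - N) % 2 = 0 := by omega
    have h3 : N + (N + 2 * (i - N) - N) / 2 = i := by omega
    simp only [pi1, join, if_neg h, if_neg h1, if_pos h2, h3]

theorem pi2_join (N : ℕ) (a c : C2) : pi2 N (join N a c) = c := by
  funext i
  have h1 : ¬ N + 2 * i + 1 < N := by omega
  have h2 : ¬ (N + 2 * i + 1 - N) % 2 = 0 := by omega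
  have h3 : (N + 2 * i + 1 - N) / 2 = i := by omega
  simp only [pi2, join, if_neg h1, if_neg h2, h3]

theorem join_pi (N : ℕ) (x : C2) : join N (pi1 N x) (pi2 N x) = x := by
  funext i
  by_cases h : i < N
  · simp [pi1, join, h]
  · by_cases h2 : (i - N) % 2 = 0
    · have h1 : ¬ N + (i - N) / 2 < N := by omega
      have h3 : N + 2 * (N + (i - N) / 2 - N) = i := by omega
      simp only [pi1, join, if_neg h, if_pos h2, if_neg h1, h3]
    · have h3 : N + 2 * ((i - N) / 2) + 1 = i := by omega
      simp only [pi2, join, if_neg h, if_neg h2, h3]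

theorem continuous_pi1 (N : ℕ) : Continuous (pi1 N) := by
  refine continuous_pi fun i => ?_
  by_cases h : i < N
  · simp only [pi1, if_pos h]; exact continuous_apply _
  · simp only [pi1, if_neg h]; exact continuous_apply _

theorem continuous_pi2 (N : ℕ) : Continuous (pi2 N) :=
  continuous_pi fun i => continuous_apply _

theorem continuous_join (N : ℕ) {a c : C2 → C2} (ha : Continuous a) (hc : Continuous c) :
    Continuous fun x => join N (a x) (c x) := by
  refine continuous_pi fun i => ?_
  by_cases h : i < N
  · simp only [join, if_pos h]; exact (continuous_apply _).comp ha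
  · by_cases h2 : (i - N) % 2 = 0
    · simp only [join, if_neg h, if_pos h2]; exact (continuous_apply _).comp ha
    · simp only [join, if_neg h, if_neg h2]; exact (continuous_apply _).comp hc

/-- The perturbation of `f`. -/
def pert (N : ℕ) (S : C2 → C2) (f : C2 → C2) (x : C2) : C2 := join N (f (pi1 N x)) (S (pi2 N x))

theorem continuous_pert (N : ℕ) {S f : C2 → C2} (hS : Continuous S) (hf : Continuous f) :
    Continuous (pert N S f) :=
  continuous_join N (hf.comp (continuous_pi1 N)) (hS.comp (continuous_pi2 N))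

theorem bijective_pert (N : ℕ) {S f : C2 → C2} (hS : Function.Bijective S)
    (hf : Function.Bijective f) : Function.Bijective (pert N S f) := by
  constructor
  · intro x y hxy
    have h1 := congrArg (pi1 N) hxy
    have h2 := congrArg (pi2 N) hxy
    simp only [pert, pi1_join, pi2_join] at h1 h2
    rw [← join_pi N x, ← join_pi N y, hf.1 h1, hS.1 h2]
  · intro y
    obtain ⟨a, ha⟩ := hf.2 (pi1 N y)
    obtain ⟨c, hc⟩ := hS.2 (pi2 N y)
    exact ⟨join N a c, by simp only [pert, pi1_join, pi2_join, ha, hc, join_pi]⟩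

theorem rule_pert (N : ℕ) {c : Bool} {P S : C2 → _} (h : Rule c P S) (f : C2 → C2) :
    Rule c (fun x => P (pi2 N x)) (pert N S f) := by
  intro x
  simp only [pert, pi2_join]
  exact h (pi2 N x)

theorem tendstoUniformly_cantor {F : ℕ → C2 → C2} {G : C2 → C2} :
    TendstoUniformly F G atTop ↔ ∀ i, ∀ᶠ N in atTop, ∀ x, F N x i = G x i := by
  rw [tendstoUniformly_iff_tendsto, Pi.uniformity, tendsto_iInf]
  refine forall_congr' fun i => ?_
  rw [tendsto_comap_iff, DiscreteUniformity.eq_principal_setRelId, tendsto_principal]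
  rw [Filter.eventually_iff, mem_prod_top]
  simp only [Function.comp_apply, SetRel.mem_id, Filter.Eventually]
  constructor
  · intro h
    filter_upwards [h] with N hN x
    exact (hN x).symm
  · intro h
    filter_upwards [h] with N hN x
    exact (hN x).symm

theorem tendsto_pert (S : C2 → C2) {f : C2 → C2} (hf : Continuous f) :
    TendstoUniformly (fun N => pert N S f) f atTop := by
  have h1 : TendstoUniformly (fun N => pi1 N) id atTop := by
    rw [tendstoUniformly_cantor]
    intro i
    filter_upwards [eventually_gt_atTop i] with N hN x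
    simp [pi1, hN]
  have h2 : TendstoUniformly (fun N x => f (pi1 N x)) f atTop :=
    (CompactSpace.uniformContinuous_of_continuous hf).comp_tendstoUniformly h1
  rw [tendstoUniformly_cantor] at h2 ⊢
  intro i
  filter_upwards [h2 i, eventually_gt_atTop i] with N hN hNi x
  rw [← hN x]
  simp [pert, join, hNi]

theorem bijective_S0 : Function.Bijective S0 :=
  Function.bijective_iff_has_inverse.2 ⟨S0', S0'_S0, S0_S0'⟩

theorem bijective_T0 : Function.Bijective T0 :=
  Function.bijective_iff_has_inverse.2 ⟨T0', T0'_T0, T0_T0'⟩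

theorem continuous_S0 : Continuous S0 := continuous_app _

theorem continuous_T0 : Continuous T0 :=
  continuous_flip0.comp (continuous_S0.comp continuous_flip0)

theorem continuous_P0 : Continuous P0 := by
  unfold P0
  fun_prop

/-- The space of pairs of homeomorphisms. -/
abbrev Pairs : Type := {p : C(ℕ → Bool, ℕ → Bool) × C(ℕ → Bool, ℕ → Bool) //
  Function.Bijective (p.1 : (ℕ → Bool) → (ℕ → Bool)) ∧
  Function.Bijective (p.2 : (ℕ → Bool) → (ℕ → Bool))}

/-- The pairs with a boundary partition. -/
def Good : Set Pairs :=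
  {q | ∃ P : C2 → Bool × Bool, Continuous P ∧ Rule false P q.1.1 ∧ Rule true P q.1.2}

theorem isOpen_rule (c : Bool) {P : C2 → Bool × Bool} (hP : Continuous P) :
    IsOpen {f : C(ℕ → Bool, ℕ → Bool) | Rule c P f} := by
  have : {f : C(ℕ → Bool, ℕ → Bool) | Rule c P f} =
      {f : C(ℕ → Bool, ℕ → Bool) | Set.MapsTo f (P ⁻¹' {(c, false)}ᶜ) (P ⁻¹' {(c, true)})} ∩
      {f : C(ℕ → Bool, ℕ → Bool) | Set.MapsTo f (P ⁻¹' {(c, false)}) (P ⁻¹' {(c, true)}ᶜ)} := by
    ext f
    simp only [Set.mem_ofPred_eq, Set.mem_inter_iff, Rule, Set.MapsTo, Set.mem_preimage,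
      Set.mem_compl_iff, Set.mem_singleton_iff]
    constructor
    · intro h
      exact ⟨fun x hx => (h x).2 hx, fun x hx hx' => (h x).1 hx' hx⟩
    · rintro ⟨h1, h2⟩ x
      exact ⟨fun h hx => h2 hx h, fun h => h1 h⟩
  rw [this]
  have hclopen : ∀ s : Set (Bool × Bool), IsClopen (P ⁻¹' s) := fun s =>
    (isClopen_discrete s).preimage hP
  exact (ContinuousMap.isOpen_setOfPred_mapsTo (hclopen _).isClosed.isCompact
    (hclopen _).isOpen).inter
    (ContinuousMap.isOpen_setOfPred_mapsTo (hclopen _).isClosed.isCompact (hclopen _).isOpen)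

theorem isOpen_good : IsOpen Good := by
  rw [isOpen_iff_mem_nhds]
  rintro q ⟨P, hP, h1, h2⟩
  have hO : IsOpen {q : Pairs | Rule false P q.1.1 ∧ Rule true P q.1.2} := by
    refine IsOpen.inter ?_ ?_
    · exact (isOpen_rule false hP).preimage (continuous_fst.comp continuous_subtype_val)
    · exact (isOpen_rule true hP).preimage (continuous_snd.comp continuous_subtype_val)
  exact Filter.mem_of_superset (hO.mem_nhds ⟨h1, h2⟩) fun q' hq' => ⟨P, hP, hq'.1, hq'.2⟩

theorem dense_good : Dense Good := by
  intro q
  let F : ℕ → Pairs := fun N =>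
    ⟨(⟨pert N S0 q.1.1, continuous_pert N continuous_S0 q.1.1.continuous⟩,
      ⟨pert N T0 q.1.2, continuous_pert N continuous_T0 q.1.2.continuous⟩),
      bijective_pert N bijective_S0 q.2.1, bijective_pert N bijective_T0 q.2.2⟩
  have hF : Tendsto F atTop (𝓝 q) := by
    rw [tendsto_subtype_rng]
    have h1 : Tendsto (fun N => (F N).1.1) atTop (𝓝 q.1.1) := by
      rw [ContinuousMap.tendsto_iff_tendstoUniformly]
      exact tendsto_pert S0 q.1.1.continuous
    have h2 : Tendsto (fun N => (F N).1.2) atTop (𝓝 q.1.2) := by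
      rw [ContinuousMap.tendsto_iff_tendstoUniformly]
      exact tendsto_pert T0 q.1.2.continuous
    exact h1.prodMk_nhds h2
  refine mem_closure_of_tendsto hF (Filter.Eventually.of_forall fun N => ?_)
  exact ⟨fun x => P0 (pi2 N x), continuous_P0.comp (continuous_pi2 N),
    rule_pert N rule_S0 _, rule_pert N rule_T0 _⟩

end Pool.Agent.J6H20.GenF2
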